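import Pool.Agent.Y119.HG.Defs3

/-!
# Project HG: an irreducible graded Lie algebra with an element of rank one is the symplectic Lie algebra
-/

set_option autoImplicit false

open Matrix

namespace Pool.Agent.Y130.HG

open Pool.Agent.Y119.HG

variable {L : Type} [Field L] {m : ℕ}

/-- the signs of the antidiagonal form -/
def sg (L : Type) [Field L] {n : ℕ} (i : Fin n) : L := (-1) ^ (i : ℕ)

theorem sg_sq {n : ℕ} (i : Fin n) : sg L i * sg L i = 1 := by
  unfold sg
  rw [← mul_pow]
  norm_num

theorem sg_ne {n : ℕ} (i : Fin n) : sg L i ≠ 0 := fun h => by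
  have := sg_sq (L := L) i
  rw [h, mul_zero] at this
  exact zero_ne_one this

theorem sg_rev (i : Fin (2 * m)) : sg L i.rev = -sg L i := by
  unfold sg
  have h1 : ((i.rev : Fin (2 * m)) : ℕ) + 1 + i = 2 * m := by
    rw [Fin.val_rev]
    have := i.2
    omega
  have h2 : ((-1 : L)) ^ ((i.rev : ℕ) + 1 + i) = 1 := by
    rw [h1, pow_mul]
    norm_num
  have h3 : ((-1 : L) ^ (i : ℕ)) * ((-1 : L) ^ (i : ℕ)) = 1 := by
    rw [← mul_pow]
    norm_num
  rw [pow_add, pow_succ] at h2
  calc (-1 : L) ^ (i.rev : ℕ) = (-1 : L) ^ (i.rev : ℕ) * (((-1 : L) ^ (i : ℕ)) * ((-1 : L) ^ (i : ℕ))) := by rw [h3, mul_one]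
    _ = -(((-1 : L) ^ (i.rev : ℕ) * -1 * (-1 : L) ^ (i : ℕ)) * (-1 : L) ^ (i : ℕ)) := by ring
    _ = -(-1 : L) ^ (i : ℕ) := by rw [h2, one_mul]

theorem rev_ne (i : Fin (2 * m)) : i.rev ≠ i := by
  intro h
  have := congrArg Fin.val h
  rw [Fin.val_rev] at this
  have := i.2
  omega

theorem Jn_apply {n : ℕ} (i j : Fin n) : Jn n L i j = if j = i.rev then sg L i else 0 := by
  unfold Jn sg
  simp only [Matrix.of_apply]
  congr 1
  rw [Fin.ext_iff, Fin.val_rev]
  have := i.2
  have := j.2
  apply propext
  constructor <;> intro h <;> omega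

theorem isp {n : ℕ} {y : Matrix (Fin n) (Fin n) L} (hy : Isp y) (i j : Fin n) :
    y j.rev i.rev = -(sg L i * sg L j) * y i j := by
  have h := congrFun (congrFun hy i) j.rev
  rw [Matrix.add_apply, Matrix.mul_apply, Matrix.mul_apply, Matrix.zero_apply] at h
  have h1 : ∑ l, y i l * Jn n L l j.rev = y i j * sg L j := by
    rw [Finset.sum_eq_single j]
    · rw [Jn_apply, if_pos rfl]
    · intro l _ hl
      rw [Jn_apply, if_neg, mul_zero]
      intro hc
      exact hl (Fin.rev_injective hc).symm
    · intro hc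
      exact absurd (Finset.mem_univ _) hc
  have h2 : ∑ l, Jn n L i l * (yᵀ) l j.rev = sg L i * y j.rev i.rev := by
    rw [Finset.sum_eq_single i.rev]
    · rw [Jn_apply, if_pos rfl, transpose_apply]
    · intro l _ hl
      rw [Jn_apply, if_neg hl, zero_mul]
    · intro hc
      exact absurd (Finset.mem_univ _) hc
  rw [h1, h2] at h
  have h3 : sg L i * y j.rev i.rev = -(y i j * sg L j) := by
    rw [eq_neg_iff_add_eq_zero, add_comm]
    exact h
  calc y j.rev i.rev = (sg L i * sg L i) * y j.rev i.rev := by rw [sg_sq, one_mul]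
    _ = sg L i * (sg L i * y j.rev i.rev) := by ring
    _ = -(sg L i * sg L j) * y i j := by rw [h3]; ring

/-- polynomials in the differences of the weights -/
theorem wt {n : ℕ} {h : Submodule L (Matrix (Fin n) (Fin n) L)} (hb : ∀ x ∈ h, ∀ y ∈ h, x * y - y * x ∈ h)
    (t : Fin n → L) (ht : Matrix.diagonal t ∈ h) (p : Polynomial L) :
    ∀ y ∈ h, (Matrix.of fun i j => p.eval (t i - t j) * y i j) ∈ h := by
  induction p using Polynomial.induction_on with
  | C a =>
    intro y hy
    have : (Matrix.of fun i j => (Polynomial.C a).eval (t i - t j) * y i j) = a • y := by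
      ext i j
      simp
    rw [this]
    exact h.smul_mem _ hy
  | add p q hp hq =>
    intro y hy
    have : (Matrix.of fun i j => (p + q).eval (t i - t j) * y i j) =
        (Matrix.of fun i j => p.eval (t i - t j) * y i j) + (Matrix.of fun i j => q.eval (t i - t j) * y i j) := by
      ext i j
      simp [add_mul]
    rw [this]
    exact h.add_mem (hp y hy) (hq y hy)
  | monomial k a ih =>
    intro y hy
    have h1 := hb _ ht _ (ih y hy)
    have : (Matrix.of fun i j => (Polynomial.C a * Polynomial.X ^ (k + 1)).eval (t i - t j) * y i j) =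
        Matrix.diagonal t * (Matrix.of fun i j => (Polynomial.C a * Polynomial.X ^ k).eval (t i - t j) * y i j) -
        (Matrix.of fun i j => (Polynomial.C a * Polynomial.X ^ k).eval (t i - t j) * y i j) * Matrix.diagonal t := by
      ext i j
      rw [Matrix.sub_apply, Matrix.diagonal_mul, Matrix.mul_diagonal]
      simp only [Matrix.of_apply, Polynomial.eval_mul, Polynomial.eval_C, Polynomial.eval_pow, Polynomial.eval_X]
      ring
    rw [this]
    exact h1

/-- the root vectors -/
def B {n : ℕ} (i j : Fin n) : Matrix (Fin n) (Fin n) L :=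
  Matrix.single i j 1 - (sg L i * sg L j) • Matrix.single j.rev i.rev 1

theorem sum_B [CharZero L] {n : ℕ} {y : Matrix (Fin n) (Fin n) L} (hy : Isp y)
    (hs : ∀ i j : Fin n, sg L i.rev * sg L j.rev = sg L i * sg L j) :
    y = (1 / 2 : L) • ∑ i, ∑ j, y i j • B (L := L) i j := by
  have h1 : ∑ i, ∑ j, y i j • (Matrix.single i j 1 : Matrix (Fin n) (Fin n) L) = y := by
    conv_rhs => rw [Matrix.matrix_eq_sum_single y]
    refine Finset.sum_congr rfl fun i _ => Finset.sum_congr rfl fun j _ => ?_
    rw [Matrix.smul_single, smul_eq_mul, mul_one]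
  have h2 : ∑ i, ∑ j, (y i j * (sg L i * sg L j)) • (Matrix.single j.rev i.rev 1 : Matrix (Fin n) (Fin n) L) = -y := by
    rw [Finset.sum_comm]
    have hr := Fin.revPerm (n := n)
    rw [← Equiv.sum_comp (Fin.revPerm (n := n))]
    have h3 : ∀ j : Fin n, ∑ i, (y i (Fin.revPerm j) * (sg L i * sg L (Fin.revPerm j))) •
        (Matrix.single (Fin.revPerm j).rev i.rev 1 : Matrix (Fin n) (Fin n) L) =
        ∑ i, (-(y j i)) • (Matrix.single j i 1 : Matrix (Fin n) (Fin n) L) := by
      intro j
      rw [← Equiv.sum_comp (Fin.revPerm (n := n))]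
      refine Finset.sum_congr rfl fun i _ => ?_
      simp only [Fin.revPerm_apply, Fin.rev_rev]
      congr 1
      have := isp hy j i
      rw [this, hs i j]
      have e1 := sg_sq (L := L) i
      have e2 := sg_sq (L := L) j
      calc -(sg L j * sg L i) * y j i * (sg L i * sg L j) = -((sg L i * sg L i) * (sg L j * sg L j) * y j i) := by ring
        _ = -(y j i) := by rw [e1, e2, one_mul, one_mul]
    rw [Finset.sum_congr rfl fun j _ => h3 j]
    simp only [neg_smul, Finset.sum_neg_distrib]
    rw [h1]
  have h3 : ∑ i, ∑ j, y i j • B (L := L) i j = y - -y := by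
    rw [← h2]
    nth_rw 2 [← h1]
    rw [← Finset.sum_sub_distrib]
    refine Finset.sum_congr rfl fun i _ => ?_
    rw [← Finset.sum_sub_distrib]
    refine Finset.sum_congr rfl fun j _ => ?_
    unfold B
    rw [smul_sub, smul_smul]
  rw [h3, sub_neg_eq_add, ← two_smul L y, smul_smul]
  norm_num

theorem sg_rr (i j : Fin (2 * m)) : sg L i.rev * sg L j.rev = sg L i * sg L j := by
  rw [sg_rev, sg_rev]
  ring

/-- the weights of the coordinate `a` -/
def tw {n : ℕ} (a : Fin n) (i : Fin n) : L := if i = a then 1 else if i = a.rev then -1 else 0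

theorem sss {n : ℕ} (i j k : Fin n) :
    (Matrix.single i j 1 : Matrix (Fin n) (Fin n) L) * Matrix.single j k 1 = Matrix.single i k 1 := by
  rw [Matrix.single_mul_single_same, one_mul]

theorem ssn {n : ℕ} (i j k l : Fin n) (h : j ≠ k) :
    (Matrix.single i j 1 : Matrix (Fin n) (Fin n) L) * Matrix.single k l 1 = 0 := by
  rw [Matrix.single_mul_single_of_ne]
  exact h

section
variable [CharZero L] {h : Submodule L (Matrix (Fin (2 * m)) (Fin (2 * m)) L)} (H : Hy h)
include H

/-- step 1: a coordinate vector -/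
theorem st1 (v : Fin (2 * m) → L) (hv : v ≠ 0) (hX : vecMulVec (Jn (2 * m) L *ᵥ v) v ∈ h) :
    ∃ a : Fin (2 * m), Matrix.single a a.rev 1 ∈ h := by
  classical
  have hne : (Finset.univ.filter fun j => v j ≠ 0).Nonempty := by
    by_contra hc
    rw [Finset.not_nonempty_iff_eq_empty] at hc
    apply hv
    funext j
    by_contra hj
    have : j ∈ (Finset.univ.filter fun j => v j ≠ 0) := by
      rw [Finset.mem_filter]
      exact ⟨Finset.mem_univ _, hj⟩
    rw [hc] at this
    exact absurd this (Finset.notMem_empty _)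
  obtain ⟨a, ha, hmax⟩ := Finset.exists_max_image _ (fun j : Fin (2 * m) => (j : ℕ)) hne
  rw [Finset.mem_filter] at ha
  refine ⟨a.rev, ?_⟩
  rw [Fin.rev_rev]
  have hg := H.gr _ hX (((a : ℕ) : ℤ) - (a.rev : ℕ))
  have hJ : ∀ i, (Jn (2 * m) L *ᵥ v) i = sg L i * v i.rev := by
    intro i
    rw [Matrix.mulVec, dotProduct, Finset.sum_eq_single i.rev]
    · rw [Jn_apply, if_pos rfl]
    · intro l _ hl
      rw [Jn_apply, if_neg hl, zero_mul]
    · intro hc
      exact absurd (Finset.mem_univ _) hc
  have he : dg (((a : ℕ) : ℤ) - (a.rev : ℕ)) (vecMulVec (Jn (2 * m) L *ᵥ v) v) =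
      (sg L a.rev * v a * v a) • (Matrix.single a.rev a 1 : Matrix (Fin (2 * m)) (Fin (2 * m)) L) := by
    ext i j
    rw [Matrix.smul_apply, smul_eq_mul]
    unfold dg
    rw [Matrix.of_apply, vecMulVec_apply, hJ]
    by_cases hi : i = a.rev ∧ j = a
    · obtain ⟨rfl, rfl⟩ := hi
      rw [if_pos rfl, Matrix.single_apply_same, mul_one, Fin.rev_rev]
    · rw [Matrix.single_apply_of_ne _ _ _ _ _ (fun hc => hi ⟨hc.1.symm, hc.2.symm⟩), mul_zero]
      by_cases hd : ((j : ℕ) : ℤ) - (i : ℕ) = ((a : ℕ) : ℤ) - (a.rev : ℕ)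
      · rw [if_pos hd]
        by_cases h1 : v i.rev = 0
        · rw [h1, mul_zero, zero_mul]
        by_cases h2 : v j = 0
        · rw [h2, mul_zero]
        exfalso
        have e1 := hmax i.rev (by rw [Finset.mem_filter]; exact ⟨Finset.mem_univ _, h1⟩)
        have e2 := hmax j (by rw [Finset.mem_filter]; exact ⟨Finset.mem_univ _, h2⟩)
        apply hi
        rw [Fin.val_rev] at hd e1
        have := i.2
        have := a.2
        have := j.2
        rw [Fin.ext_iff, Fin.ext_iff, Fin.val_rev]
        omega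
      · rw [if_neg hd]
  rw [he] at hg
  have hc : sg L a.rev * v a * v a ≠ 0 := mul_ne_zero (mul_ne_zero (sg_ne _) ha.2) ha.2
  have := h.smul_mem (sg L a.rev * v a * v a)⁻¹ hg
  rwa [smul_smul, inv_mul_cancel₀ hc, one_smul] at this

/-- step 2: the torus element of the coordinate -/
theorem st2 (a : Fin (2 * m)) (ha : Matrix.single a a.rev 1 ∈ h) :
    Matrix.diagonal (tw (L := L) a) ∈ h ∧ Matrix.single a.rev a 1 ∈ h := by
  have hra := rev_ne a
  obtain ⟨y0, hy0, hne0⟩ : ∃ y ∈ h, y a.rev a ≠ 0 := by
    by_contra hc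
    push_neg at hc
    have := H.tr a.rev a hc _ ha
    rw [Matrix.single_apply_same] at this
    exact one_ne_zero this
  set y := dg (((a : ℕ) : ℤ) - (a.rev : ℕ)) y0 with hyd
  have hy : y ∈ h := H.gr _ hy0 _
  have hya : y a.rev a = y0 a.rev a := by
    rw [hyd]
    unfold dg
    rw [Matrix.of_apply, if_pos rfl]
  have hne : y a.rev a ≠ 0 := by rwa [hya]
  have hy1 : ∀ j, j ≠ a → y a.rev j = 0 := by
    intro j hj
    rw [hyd]
    unfold dg
    rw [Matrix.of_apply, if_neg]
    intro hc
    apply hj
    rw [Fin.ext_iff]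
    omega
  have hy2 : ∀ i, i ≠ a.rev → y i a = 0 := by
    intro i hi
    rw [hyd]
    unfold dg
    rw [Matrix.of_apply, if_neg]
    intro hc
    apply hi
    rw [Fin.ext_iff]
    omega
  have hz := H.br _ ha _ hy
  have hz1 : Matrix.single a a.rev 1 * y - y * Matrix.single a a.rev 1 = (y a.rev a) • Matrix.diagonal (tw (L := L) a) := by
    ext i j
    rw [Matrix.sub_apply, Matrix.smul_apply, smul_eq_mul]
    have e1 : ((Matrix.single a a.rev 1 : Matrix (Fin (2 * m)) (Fin (2 * m)) L) * y) i j = if i = a then y a.rev j else 0 := by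
      by_cases hi : i = a
      · subst hi
        rw [if_pos rfl, Matrix.single_mul_apply_same, one_mul]
      · rw [if_neg hi, Matrix.single_mul_apply_of_ne]
        exact hi
    have e2 : (y * (Matrix.single a a.rev 1 : Matrix (Fin (2 * m)) (Fin (2 * m)) L)) i j = if j = a.rev then y i a else 0 := by
      by_cases hj : j = a.rev
      · subst hj
        rw [if_pos rfl, Matrix.mul_single_apply_same, mul_one]
      · rw [if_neg hj, Matrix.mul_single_apply_of_ne]
        exact hj
    rw [e1, e2, Matrix.diagonal_apply]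
    unfold tw
    by_cases hi : i = a
    · subst hi
      by_cases hj : j = i
      · subst hj
        rw [if_pos rfl, if_neg (Ne.symm hra), if_pos rfl, if_pos rfl, sub_zero, mul_one]
      · rw [if_pos rfl, hy1 j hj, hy2 i (Ne.symm hra), ite_self, if_neg (Ne.symm hj), mul_zero, sub_zero]
    · rw [if_neg hi, zero_sub]
      by_cases hj : j = a.rev
      · rw [if_pos hj]
        by_cases hi2 : i = a.rev
        · rw [if_pos (hi2.trans hj.symm), if_neg hi, if_pos hi2, hi2, mul_neg, mul_one]
        · rw [hy2 i hi2, if_neg (fun hc => hi2 (hc.trans hj)), neg_zero, mul_zero]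
      · rw [if_neg hj, neg_zero]
        by_cases hij : i = j
        · rw [if_pos hij, if_neg hi, if_neg (fun hc => hj (hij.symm.trans hc)), mul_zero]
        · rw [if_neg hij, mul_zero]
  rw [hz1] at hz
  have hD : Matrix.diagonal (tw (L := L) a) ∈ h := by
    have := h.smul_mem (y a.rev a)⁻¹ hz
    rwa [smul_smul, inv_mul_cancel₀ hne, one_smul] at this
  refine ⟨hD, ?_⟩
  have hw := wt H.br (tw (L := L) a) hD (Polynomial.C (1 / 24 : L) * ((Polynomial.X + 1) * Polynomial.X * (Polynomial.X - 1) *
    (Polynomial.X - 2))) y hy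
  have hw1 : (Matrix.of fun i j => (Polynomial.C (1 / 24 : L) * ((Polynomial.X + 1) * Polynomial.X * (Polynomial.X - 1) *
    (Polynomial.X - 2))).eval (tw (L := L) a i - tw a j) * y i j) = (y a.rev a) • Matrix.single a.rev a 1 := by
    ext i j
    rw [Matrix.smul_apply, smul_eq_mul, Matrix.of_apply]
    simp only [Polynomial.eval_mul, Polynomial.eval_C, Polynomial.eval_add, Polynomial.eval_sub, Polynomial.eval_X,
      Polynomial.eval_one, Polynomial.eval_ofNat]
    by_cases hi : i = a.rev ∧ j = a
    · obtain ⟨rfl, rfl⟩ := hi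
      rw [Matrix.single_apply_same, mul_one]
      unfold tw
      rw [if_neg hra, if_pos rfl, if_pos rfl]
      norm_num
    · rw [Matrix.single_apply_of_ne _ _ _ _ _ (fun hc => hi ⟨hc.1.symm, hc.2.symm⟩), mul_zero]
      unfold tw
      by_cases h1 : i = a
      · subst h1
        by_cases h2 : j = i
        · subst h2
          rw [if_pos rfl]
          norm_num
        · by_cases h3 : j = i.rev
          · rw [if_pos rfl, if_neg h2, if_pos h3]
            norm_num
          · rw [if_pos rfl, if_neg h2, if_neg h3]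
            norm_num
      · by_cases h1' : i = a.rev
        · rw [if_neg h1, if_pos h1']
          by_cases h2 : j = a
          · exact absurd ⟨h1', h2⟩ hi
          · rw [if_neg h2]
            by_cases h3 : j = a.rev
            · rw [if_pos h3]
              norm_num
            · rw [if_neg h3]
              norm_num
        · rw [if_neg h1, if_neg h1']
          by_cases h2 : j = a
          · rw [if_pos h2]
            norm_num
          · by_cases h3 : j = a.rev
            · rw [if_neg h2, if_pos h3]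
              norm_num
            · rw [if_neg h2, if_neg h3]
              norm_num
  rw [hw1] at hw
  have := h.smul_mem (y a.rev a)⁻¹ hw
  rwa [smul_smul, inv_mul_cancel₀ hne, one_smul] at this

/-- step 3: root vectors at a good coordinate -/
theorem st3 (a b : Fin (2 * m)) (ha : Matrix.single a a.rev 1 ∈ h) (y0 : Matrix (Fin (2 * m)) (Fin (2 * m)) L) (hy0 : y0 ∈ h)
    (hab : y0 a b ≠ 0) (h1 : b ≠ a) (h2 : b ≠ a.rev) : B (L := L) a b ∈ h := by
  have hra := rev_ne a
  obtain ⟨hD, -⟩ := st2 H a ha
  set y := dg (((b : ℕ) : ℤ) - (a : ℕ)) y0 with hyd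
  have hy : y ∈ h := H.gr _ hy0 _
  have hya : y a b = y0 a b := by
    rw [hyd]
    unfold dg
    rw [Matrix.of_apply, if_pos rfl]
  have hne : y a b ≠ 0 := by rwa [hya]
  have hy1 : ∀ i j : Fin (2 * m), ((j : ℕ) : ℤ) - (i : ℕ) ≠ ((b : ℕ) : ℤ) - (a : ℕ) → y i j = 0 := by
    intro i j hj
    rw [hyd]
    unfold dg
    rw [Matrix.of_apply, if_neg hj]
  have hbr : b.rev ≠ a := fun hc => h2 (by rw [← hc, Fin.rev_rev])
  have hbr2 : b.rev ≠ a.rev := fun hc => h1 (Fin.rev_injective hc)
  have hw := wt H.br (tw (L := L) a) hD (Polynomial.C (-1 / 6 : L) * ((Polynomial.X + 2) * (Polynomial.X + 1) * Polynomial.X *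
    (Polynomial.X - 2))) y hy
  have hw1 : (Matrix.of fun i j => (Polynomial.C (-1 / 6 : L) * ((Polynomial.X + 2) * (Polynomial.X + 1) * Polynomial.X *
    (Polynomial.X - 2))).eval (tw (L := L) a i - tw a j) * y i j) = (y a b) • B (L := L) a b := by
    have hBe : ∀ i j, (y a b • B (L := L) a b) i j = (if i = a ∧ j = b then y a b else 0) +
        (if i = b.rev ∧ j = a.rev then y b.rev a.rev else 0) := by
      intro i j
      unfold B
      rw [Matrix.smul_apply, Matrix.sub_apply, Matrix.smul_apply, Matrix.single_apply, Matrix.single_apply, smul_eq_mul,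
        smul_eq_mul, mul_sub, sub_eq_add_neg]
      congr 1
      · by_cases hc : i = a ∧ j = b
        · rw [if_pos hc, if_pos ⟨hc.1.symm, hc.2.symm⟩, mul_one]
        · rw [if_neg hc, if_neg (fun hd => hc ⟨hd.1.symm, hd.2.symm⟩), mul_zero]
      · by_cases hc : i = b.rev ∧ j = a.rev
        · rw [if_pos hc, if_pos ⟨hc.1.symm, hc.2.symm⟩, mul_one, isp (H.sp _ hy) a b]
          ring
        · rw [if_neg hc, if_neg (fun hd => hc ⟨hd.1.symm, hd.2.symm⟩), mul_zero, mul_zero, neg_zero]
    ext i j
    rw [hBe, Matrix.of_apply]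
    simp only [Polynomial.eval_mul, Polynomial.eval_C, Polynomial.eval_add, Polynomial.eval_sub, Polynomial.eval_X,
      Polynomial.eval_one, Polynomial.eval_ofNat]
    by_cases hd : ((j : ℕ) : ℤ) - (i : ℕ) = ((b : ℕ) : ℤ) - (a : ℕ)
    · have hia : i = a ↔ j = b := by
        rw [Fin.ext_iff, Fin.ext_iff]
        omega
      have hja : j = a.rev ↔ i = b.rev := by
        rw [Fin.ext_iff, Fin.ext_iff, Fin.val_rev, Fin.val_rev]
        have := i.2
        have := j.2
        have := a.2
        have := b.2
        omega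
      unfold tw
      by_cases hi : i = a
      · have hj := hia.1 hi
        subst hi
        subst hj
        rw [if_pos rfl, if_neg h1, if_neg h2, if_pos ⟨rfl, rfl⟩, if_neg (fun hc => h2 hc.2)]
        norm_num
      · have hj : j ≠ b := fun hc => hi (hia.2 hc)
        rw [if_neg (fun hc : i = a ∧ j = b => hi hc.1), zero_add, if_neg hi]
        by_cases hj2 : j = a.rev
        · have hi2 := hja.1 hj2
          subst hi2
          subst hj2
          rw [if_neg hbr2, if_neg hra, if_pos rfl, if_pos (⟨rfl, rfl⟩ : b.rev = b.rev ∧ a.rev = a.rev)]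
          norm_num
        · rw [if_neg (fun hc : i = b.rev ∧ j = a.rev => hj2 hc.2)]
          by_cases hi3 : i = a.rev
          · rw [if_pos hi3, if_neg hj2]
            by_cases hj3 : j = a
            · rw [if_pos hj3]
              norm_num
            · rw [if_neg hj3]
              norm_num
          · rw [if_neg hi3, if_neg hj2]
            by_cases hj3 : j = a
            · rw [if_pos hj3]
              norm_num
            · rw [if_neg hj3]
              norm_num
    · rw [hy1 i j hd, mul_zero, if_neg, if_neg, add_zero]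
      · rintro ⟨rfl, rfl⟩
        apply hd
        rw [Fin.val_rev, Fin.val_rev]
        have := a.2
        have := b.2
        omega
      · rintro ⟨rfl, rfl⟩
        exact hd rfl
  rw [hw1] at hw
  have := h.smul_mem (y a b)⁻¹ hw
  rwa [smul_smul, inv_mul_cancel₀ hne, one_smul] at this

/-- step 4a -/
theorem st4 (a b : Fin (2 * m)) (ha : Matrix.single a.rev a 1 ∈ h) (h1 : b ≠ a) (h2 : b ≠ a.rev) (hB : B (L := L) a b ∈ h) :
    B (L := L) a.rev b ∈ h := by
  have hra := rev_ne a
  have hrb := rev_ne b
  have hbr : b.rev ≠ a := fun hc => h2 (by rw [← hc, Fin.rev_rev])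
  have hbr2 : b.rev ≠ a.rev := fun hc => h1 (Fin.rev_injective hc)
  have := H.br _ ha _ hB
  have he : Matrix.single a.rev a 1 * B (L := L) a b - B a b * Matrix.single a.rev a 1 = B a.rev b := by
    unfold B
    rw [Matrix.mul_sub, Matrix.sub_mul, Matrix.mul_smul, Matrix.smul_mul, sss, ssn _ _ _ _ hbr.symm, ssn _ _ _ _ h2, sss,
      Fin.rev_rev, sg_rev]
    module
  rwa [he] at this

/-- step 4 -/
theorem st5 (a b : Fin (2 * m)) (ha : Matrix.single a a.rev 1 ∈ h) (h1 : b ≠ a) (h2 : b ≠ a.rev) (hB : B (L := L) a b ∈ h) :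
    Matrix.single b b.rev 1 ∈ h := by
  have hra := rev_ne a
  have hrb := rev_ne b
  have hbr : b.rev ≠ a := fun hc => h2 (by rw [← hc, Fin.rev_rev])
  have hbr2 : b.rev ≠ a.rev := fun hc => h1 (Fin.rev_injective hc)
  have h4 := st4 H a b (st2 H a ha).2 h1 h2 hB
  have := H.br _ hB _ h4
  have he : B (L := L) a b * B a.rev b - B a.rev b * B a b = (-(2 * (sg L a * sg L b))) • Matrix.single b.rev b 1 := by
    unfold B
    simp only [Matrix.mul_sub, Matrix.sub_mul, Matrix.mul_smul, Matrix.smul_mul, Fin.rev_rev, sss, ssn _ _ _ _ h1,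
      ssn _ _ _ _ h2, ssn _ _ _ _ hrb.symm, ssn _ _ _ _ hra, ssn _ _ _ _ hra.symm, ssn _ _ _ _ hbr.symm, ssn _ _ _ _ hbr2.symm, sg_rev]
    module
  rw [he] at this
  have hc : -(2 * (sg L a * sg L b)) ≠ 0 := neg_ne_zero.2 (mul_ne_zero two_ne_zero (mul_ne_zero (sg_ne _) (sg_ne _)))
  have h5 := h.smul_mem (-(2 * (sg L a * sg L b)))⁻¹ this
  rw [smul_smul, inv_mul_cancel₀ hc, one_smul] at h5
  have h6 := st2 H b.rev (by rwa [Fin.rev_rev])
  rw [Fin.rev_rev] at h6
  exact h6.2

end

/-- an irreducible graded Lie algebra with an element of rank one is the symplectic Lie algebra -/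
theorem t_TRV : T_TRV := by
  intro L _ _ m hm h H hirr ⟨v, hv, hX⟩ y hy
  obtain ⟨a0, ha0⟩ := st1 H v hv hX
  have hT : ∀ a : Fin (2 * m), Matrix.single a a.rev 1 ∈ h := by
    have := hirr {a | Matrix.single a a.rev 1 ∈ h} (by
      intro i hi j hj z hz
      by_contra hne
      apply hj
      by_cases h1 : j = i
      · subst h1
        exact hi
      by_cases h2 : j = i.rev
      · subst h2
        show Matrix.single i.rev i.rev.rev 1 ∈ h
        rw [Fin.rev_rev]
        exact (st2 H i hi).2
      exact st5 H i j hi h1 h2 (st3 H i j hi z hz hne h1 h2))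
    rcases this with h1 | h1
    · have : a0 ∈ ({a | Matrix.single a a.rev 1 ∈ h} : Set (Fin (2 * m))) := ha0
      rw [h1] at this
      exact absurd this (Set.notMem_empty _)
    · intro a
      have : a ∈ ({a | Matrix.single a a.rev 1 ∈ h} : Set (Fin (2 * m))) := by
        rw [h1]
        exact Set.mem_univ _
      exact this
  have hT' : ∀ a : Fin (2 * m), Matrix.single a.rev a 1 ∈ h := fun a => (st2 H a (hT a)).2
  have hR : ∀ a b : Fin (2 * m), b = a ∨ b = a.rev ∨ B (L := L) a b ∈ h := by
    intro a
    have := hirr {b | b = a ∨ b = a.rev ∨ B (L := L) a b ∈ h} (by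
      intro b hb c hc z hz
      by_contra hne
      apply hc
      by_cases c1 : c = a
      · exact Or.inl c1
      by_cases c2 : c = a.rev
      · exact Or.inr (Or.inl c2)
      right
      right
      have hbc : c ≠ b := by
        rintro rfl
        exact hc hb
      rcases hb with rfl | rfl | hb
      · exact st3 H _ _ (hT _) z hz hne c1 c2
      · have h3 := st3 H _ _ (hT _) z hz hne c2 (by rw [Fin.rev_rev]; exact c1)
        have h4 := st4 H _ _ (by rw [Fin.rev_rev]; exact hT _) c2 (by rw [Fin.rev_rev]; exact c1) h3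
        rwa [Fin.rev_rev] at h4
      · by_cases b1 : b = a
        · subst b1
          exact st3 H _ _ (hT _) z hz hne c1 c2
        by_cases b2 : b = a.rev
        · subst b2
          have h3 := st3 H _ _ (hT _) z hz hne c2 (by rw [Fin.rev_rev]; exact c1)
          have h4 := st4 H _ _ (by rw [Fin.rev_rev]; exact hT _) c2 (by rw [Fin.rev_rev]; exact c1) h3
          rwa [Fin.rev_rev] at h4
        have hra := rev_ne a
        have hrb := rev_ne b
        have hrc := rev_ne c
        have b3 : b.rev ≠ a := fun hc => b2 (by rw [← hc, Fin.rev_rev])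
        have b4 : b.rev ≠ a.rev := fun hc => b1 (Fin.rev_injective hc)
        have c3 : c.rev ≠ a := fun hc => c2 (by rw [← hc, Fin.rev_rev])
        have c4 : c.rev ≠ a.rev := fun hc => c1 (Fin.rev_injective hc)
        by_cases hcb : c = b.rev
        · subst hcb
          have := H.br _ hb _ (hT b)
          have he : B (L := L) a b * Matrix.single b b.rev 1 - Matrix.single b b.rev 1 * B a b = B a b.rev := by
            unfold B
            rw [Matrix.mul_sub, Matrix.sub_mul, Matrix.mul_smul, Matrix.smul_mul, sss, sss, ssn _ _ _ _ (Ne.symm b2),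
              ssn _ _ _ _ b3, Fin.rev_rev, sg_rev]
            module
          rwa [he] at this
        · have c5 : c.rev ≠ b := fun hc => hcb (by rw [← hc, Fin.rev_rev])
          have c6 : c.rev ≠ b.rev := fun hc => hbc (Fin.rev_injective hc)
          have h3 := st3 H _ _ (hT _) z hz hne hbc hcb
          have := H.br _ hb _ h3
          have he : B (L := L) a b * B b c - B b c * B a b = B a c := by
            unfold B
            simp only [Matrix.mul_sub, Matrix.sub_mul, Matrix.mul_smul, Matrix.smul_mul, sss, ssn _ _ _ _ (Ne.symm b2),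
              ssn _ _ _ _ c5.symm, ssn _ _ _ _ c4.symm, ssn _ _ _ _ c1, ssn _ _ _ _ hcb, ssn _ _ _ _ b3]
            have e1 := sg_sq (L := L) b
            have e2 : sg L a * sg L c = (sg L a * sg L b) * (sg L b * sg L c) := by
              calc sg L a * sg L c = sg L a * (sg L b * sg L b) * sg L c := by rw [e1, mul_one]
                _ = _ := by ring
            rw [e2]
            module
          rwa [he] at this)
    rcases this with h1 | h1
    · have : a ∈ ({b | b = a ∨ b = a.rev ∨ B (L := L) a b ∈ h} : Set (Fin (2 * m))) := Or.inl rfl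
      rw [h1] at this
      exact absurd this (Set.notMem_empty _)
    · intro b
      have : b ∈ ({b | b = a ∨ b = a.rev ∨ B (L := L) a b ∈ h} : Set (Fin (2 * m))) := by
        rw [h1]
        exact Set.mem_univ _
      exact this
  have hB : ∀ a b : Fin (2 * m), B (L := L) a b ∈ h := by
    intro a b
    rcases hR a b with rfl | rfl | h1
    · have := (st2 H b (hT b)).1
      have he : Matrix.diagonal (tw (L := L) b) = B (L := L) b b := by
        ext i j
        unfold B tw
        rw [Matrix.diagonal_apply, Matrix.sub_apply, Matrix.smul_apply, Matrix.single_apply, Matrix.single_apply, sg_sq,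
          one_smul]
        have hra := rev_ne b
        by_cases hij : i = j
        · subst hij
          rw [if_pos rfl]
          by_cases h1 : i = b
          · subst h1
            rw [if_pos rfl, if_pos ⟨rfl, rfl⟩, if_neg (fun hc => hra hc.1), sub_zero]
          · by_cases h2 : i = b.rev
            · rw [if_neg h1, if_pos h2, if_neg (fun hc => h1 hc.1.symm), if_pos ⟨h2.symm, h2.symm⟩, zero_sub]
            · rw [if_neg h1, if_neg h2, if_neg (fun hc => h1 hc.1.symm), if_neg (fun hc => h2 hc.1.symm), sub_zero]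
        · rw [if_neg hij, if_neg (fun hc => hij (hc.1.symm.trans hc.2)), if_neg (fun hc => hij (hc.1.symm.trans hc.2)),
            sub_zero]
      rwa [he] at this
    · have he : B (L := L) a a.rev = (2 : L) • Matrix.single a a.rev 1 := by
        unfold B
        rw [Fin.rev_rev, sg_rev, mul_neg, sg_sq]
        module
      rw [he]
      exact h.smul_mem _ (hT a)
    · exact h1
  rw [sum_B hy sg_rr]
  exact h.smul_mem _ (h.sum_mem fun i _ => h.sum_mem fun j _ => h.smul_mem _ (hB i j))

end Pool.Agent.Y130.HG
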